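import Pool.Agent.TH563.Z.Kx

/-!
Project Z (helper563): the potential at real points, `ψ` real and `φ` purely imaginary.
-/

set_option autoImplicit false

namespace Pool.Agent.TH126.ZK

open Finset Filter Topology Metric
open Pool.Agent.W711.HT hiding XX
open Pool.Agent.TH563.Z
open scoped Real

lemma cos_yI (y : ℝ) : Complex.cos (y * Complex.I) = ((Real.cosh y : ℝ) : ℂ) := by
  rw [Complex.cos_mul_I]; push_cast; rfl

lemma cos_pos' {a : ℝ} (h : |a| < 1) : 0 < Real.cos a := by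
  obtain ⟨h1, h2⟩ := abs_lt.1 h
  apply Real.cos_pos_of_mem_Ioo
  constructor <;> linarith [Real.pi_gt_three]

lemma rr_re {δ q : ℝ} {ψ : ℂ} (hq : Complex.cos ψ = q)
    (h : ∀ t : ℝ, 0 ≤ t → t ≤ 1 → 0 ≤ 2 * q + 2 * Real.cos (2 * π * δ * t)) :
    (rrF (δ : ℂ) ψ).im = 0 := by
  have h' : rrF (δ : ℂ) ψ = ((δ * ∫ t in (0:ℝ)..1,
      Real.log (2 * q + 2 * Real.cos (2 * π * δ * t)) : ℝ) : ℂ) := by
    unfold rrF
    push_cast
    congr 1
    rw [← intervalIntegral.integral_ofReal]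
    apply intervalIntegral.integral_congr
    intro t ht
    rw [Set.uIcc_of_le (by norm_num)] at ht
    simp only
    rw [Complex.ofReal_log (h t ht.1 ht.2), hq]
    push_cast
    rfl
  rw [h', Complex.ofReal_im]

lemma ss_re {δ : ℝ} (h1 : 0 ≤ δ) (h2 : δ ≤ 1) : (ssF (δ : ℂ)).im = 0 := by
  have h : ssF (δ : ℂ) = ((δ * ∫ t in (0:ℝ)..1, Real.log (2 * Real.sin (π * δ * t)) : ℝ) : ℂ) := by
    unfold ssF
    push_cast
    congr 1
    rw [← intervalIntegral.integral_ofReal]
    apply intervalIntegral.integral_congr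
    intro t ht
    rw [Set.uIcc_of_le (by norm_num)] at ht
    simp only
    have h3 : 0 ≤ 2 * Real.sin (π * δ * t) := by
      have h4 : 0 ≤ π * δ * t := mul_nonneg (mul_nonneg Real.pi_pos.le h1) ht.1
      have h5 : π * δ * t ≤ π := by
        have : δ * t ≤ 1 := by nlinarith [ht.1, ht.2]
        nlinarith [Real.pi_pos]
      have := Real.sin_nonneg_of_nonneg_of_le_pi h4 h5
      linarith
    rw [Complex.ofReal_log h3]
    push_cast
    rfl
  rw [h, Complex.ofReal_im]

/-- a number with cosine in `(-1, 1)` is real -/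
lemma im_zero_of_cos {z : ℂ} {q : ℝ} (h : Complex.cos (2 * π * z) = q) (h1 : -1 < q) (h2 : q < 1) :
    z.im = 0 ∧ Real.cos (2 * π * z.re) = q := by
  have h7 : (2 * π * z : ℂ) = ((2 * π * z.re : ℝ) : ℂ) + ((2 * π * z.im : ℝ) : ℂ) * Complex.I := by
    conv_lhs => rw [← Complex.re_add_im z]
    push_cast
    ring
  rw [h7, Complex.cos_add_mul_I, ← Complex.ofReal_cos, ← Complex.ofReal_cosh,
      ← Complex.ofReal_sin, ← Complex.ofReal_sinh] at h
  have h9 := congrArg Complex.im h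
  have h10 := congrArg Complex.re h
  simp only [Complex.sub_im, Complex.sub_re, Complex.mul_im, Complex.mul_re, Complex.ofReal_re,
    Complex.ofReal_im, Complex.I_re, Complex.I_im] at h9 h10
  have h11 : Real.sin (2 * π * z.re) * Real.sinh (2 * π * z.im) = 0 := by linarith
  have h12 : Real.cos (2 * π * z.re) * Real.cosh (2 * π * z.im) = q := by linarith
  have hs : Real.sin (2 * π * z.re) ≠ 0 := by
    intro hs
    have hc := Real.sin_sq_add_cos_sq (2 * π * z.re)
    rw [hs] at hc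
    have hc1 : (Real.cos (2 * π * z.re) - 1) * (Real.cos (2 * π * z.re) + 1) = 0 := by nlinarith
    have hch := Real.one_le_cosh (2 * π * z.im)
    rcases mul_eq_zero.1 hc1 with h' | h'
    · have : Real.cos (2 * π * z.re) = 1 := by linarith
      rw [this] at h12
      linarith
    · have : Real.cos (2 * π * z.re) = -1 := by linarith
      rw [this] at h12
      linarith
  have him : z.im = 0 := by
    rcases mul_eq_zero.1 h11 with h' | h'
    · exact absurd h' hs
    · rw [Real.sinh_eq_zero] at h'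
      rcases mul_eq_zero.1 h' with h' | h'
      · nlinarith [Real.pi_pos]
      · exact h'
  refine ⟨him, ?_⟩
  rw [him, mul_zero, Real.cosh_zero, mul_one] at h12
  exact h12

/-- the value of the cosine at the critical point -/
noncomputable def qv (a y : ℝ) : ℝ :=
  (1 - Real.cos a * Real.cosh y) / (2 + Real.cos a + Real.cosh y)

lemma qv_facts {a y : ℝ} (ha : |a| < 1) : -1 < qv a y ∧ qv a y < 1 ∧
    0 < Real.cos a + qv a y ∧ 0 < Real.cosh y + qv a y := by
  have h1 := cos_pos' ha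
  have h2 := Real.cosh_pos y
  have h3 := Real.cos_le_one a
  have hd : 0 < 2 + Real.cos a + Real.cosh y := by linarith
  unfold qv
  refine ⟨?_, ?_, ?_, ?_⟩
  · rw [lt_div_iff₀ hd]
    nlinarith
  · rw [div_lt_one hd]
    nlinarith [mul_pos h1 h2]
  · have e : Real.cos a + (1 - Real.cos a * Real.cosh y) / (2 + Real.cos a + Real.cosh y) =
        (1 + Real.cos a) ^ 2 / (2 + Real.cos a + Real.cosh y) := by
      field_simp
      ring
    rw [e]
    positivity
  · have e : Real.cosh y + (1 - Real.cos a * Real.cosh y) / (2 + Real.cos a + Real.cosh y) =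
        (1 + Real.cosh y) ^ 2 / (2 + Real.cos a + Real.cosh y) := by
      field_simp
      ring
    rw [e]
    positivity

section

variable {η r c C : ℝ} {s dl : ℂ → ℂ → ℂ}

lemma mem_Rc {r a : ℝ} (h : |a| < r) : (a : ℂ) ∈ Rc r r := by
  have h0 : 0 < r := (abs_nonneg a).trans_lt h
  refine ⟨by simpa using h, by simpa using h0⟩

lemma mem_Rz {η r y : ℝ} (h : |y - η| < r) : (y * Complex.I : ℂ) ∈ Rz η r r := by
  have h0 : 0 < r := (abs_nonneg _).trans_lt h
  refine ⟨by simpa using h0, by simpa using h⟩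

lemma dl_im (H : SDZ η r c C s dl) {a y : ℝ} (ha : |a| < r) (hy : |y - η| < r) :
    (dl a (y * Complex.I)).im = 0 ∧
      Real.cos (2 * π * (dl a (y * Complex.I)).re) = qv a y := by
  have hr := H.hr
  have ha1 : |a| < 1 := by linarith [hr.2.1]
  obtain ⟨q1, q2, -, -⟩ := qv_facts (y := y) ha1
  refine im_zero_of_cos ?_ q1 q2
  rw [H.dcos a (mem_Rc ha) _ (mem_Rz hy), cos_yI]
  unfold qv
  push_cast
  rfl

/-- at real points the critical point is real, and lies in `(0, 1 / 2)` -/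
lemma dl_re (H : SDZ η r c C s dl) (h0 : 0 < dz η) (h0' : dz η < 1 / 2) {a y : ℝ} (ha : |a| < r)
    (hy : |y - η| < r) : ∃ x : ℝ, dl a (y * Complex.I) = x ∧ 0 < x ∧ x < 1 / 2 ∧
      Real.cos (2 * π * x) = qv a y := by
  have hr := H.hr
  -- the real points
  set S : Set (ℝ × ℝ) := Set.Ioo (-r) r ×ˢ Set.Ioo (η - r) (η + r) with hS
  have hSc : IsPreconnected S := isPreconnected_Ioo.prod isPreconnected_Ioo
  have hmem : ∀ p ∈ S, |p.1| < r ∧ |p.2 - η| < r := by
    intro p hp
    refine ⟨abs_lt.2 hp.1, abs_lt.2 ⟨?_, ?_⟩⟩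
    · linarith [hp.2.1]
    · linarith [hp.2.2]
  set f : ℝ × ℝ → ℝ := fun p => (dl p.1 (p.2 * Complex.I)).re with hf
  have hfc : ContinuousOn f S := by
    apply Complex.continuous_re.comp_continuousOn
    have h1 : ContinuousOn (fun p : ℝ × ℝ => ((p.1 : ℂ), (p.2 * Complex.I : ℂ))) S := by
      fun_prop
    exact (H.dan.continuousOn).comp h1 fun p hp => ⟨mem_Rc (hmem p hp).1, mem_Rz (hmem p hp).2⟩
  have hcos : ∀ p ∈ S, Real.cos (2 * π * f p) = qv p.1 p.2 := fun p hp =>
    (dl_im H (hmem p hp).1 (hmem p hp).2).2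
  have hq : ∀ p ∈ S, -1 < qv p.1 p.2 ∧ qv p.1 p.2 < 1 := fun p hp => by
    have h1 := qv_facts (a := p.1) (y := p.2) (by linarith [(hmem p hp).1, hr.2.1])
    exact ⟨h1.1, h1.2.1⟩
  have hne0 : ∀ p ∈ S, f p ≠ 0 := by
    intro p hp h
    have := hcos p hp
    rw [h, mul_zero, Real.cos_zero] at this
    exact absurd this (hq p hp).2.ne'
  have hne1 : ∀ p ∈ S, f p ≠ 1 / 2 := by
    intro p hp h
    have := hcos p hp
    rw [h, show 2 * π * (1 / 2) = π by ring, Real.cos_pi] at this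
    exact absurd this (hq p hp).1.ne
  have hb : ((0 : ℝ), η) ∈ S := by
    refine ⟨⟨?_, ?_⟩, ⟨?_, ?_⟩⟩ <;> simp only <;> linarith [hr.1]
  have hfb : f (0, η) = dz η := by
    rw [hf]
    simp only [Complex.ofReal_zero]
    rw [H.dbase, Complex.ofReal_re]
  have hp : (a, y) ∈ S := by
    obtain ⟨a1, a2⟩ := abs_lt.1 ha
    obtain ⟨y1, y2⟩ := abs_lt.1 hy
    exact ⟨⟨a1, a2⟩, ⟨by simp only; linarith, by simp only; linarith⟩⟩
  have hgt : 0 < f (a, y) := by
    by_contra h
    have := hSc.intermediate_value hp hb hfc ⟨not_lt.1 h, by rw [hfb]; exact h0.le⟩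
    obtain ⟨p, hp, h1⟩ := this
    exact hne0 p hp h1
  have hlt : f (a, y) < 1 / 2 := by
    by_contra h
    have := hSc.intermediate_value hb hp hfc ⟨by rw [hfb]; exact h0'.le, not_lt.1 h⟩
    obtain ⟨p, hp, h1⟩ := this
    exact hne1 p hp h1
  refine ⟨f (a, y), ?_, hgt, hlt, hcos _ hp⟩
  apply Complex.ext
  · rw [Complex.ofReal_re]
  · rw [Complex.ofReal_im]
    exact (dl_im H ha hy).1

lemma arg_nonneg {x q t : ℝ} (h0 : 0 ≤ x) (h1 : x ≤ 1 / 2) (hq : 0 ≤ q + Real.cos (2 * π * x))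
    (ht : 0 ≤ t) (ht' : t ≤ 1) : 0 ≤ 2 * q + 2 * Real.cos (2 * π * x * t) := by
  have hpi := Real.pi_pos
  have h2 : Real.cos (2 * π * x) ≤ Real.cos (2 * π * x * t) := by
    apply Real.cos_le_cos_of_nonneg_of_le_pi (by positivity) (by nlinarith)
    have : 0 ≤ 2 * π * x := by positivity
    nlinarith
  linarith

/-- the potential is real at real points -/
lemma s_re (H : SDZ η r c C s dl) (h0 : 0 < dz η) (h0' : dz η < 1 / 2) {a y : ℝ} (ha : |a| < r)
    (hy : |y - η| < r) : (s a (y * Complex.I)).im = 0 := by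
  have hr := H.hr
  obtain ⟨x, hx, x0, x1, hxc⟩ := dl_re H h0 h0' ha hy
  obtain ⟨-, -, q3, q4⟩ := qv_facts (a := a) (y := y) (by linarith [hr.2.1])
  rw [← hxc] at q3 q4
  rw [H.scrit a (mem_Rc ha) _ (mem_Rz hy), hx]
  have k1 : (rrF (x : ℂ) (a : ℂ)).im = 0 := rr_re (q := Real.cos a) (by push_cast; rfl)
    fun t ht ht' => arg_nonneg x0.le x1.le q3.le ht ht'
  have k2 : (rrF (x : ℂ) (y * Complex.I)).im = 0 := rr_re (q := Real.cosh y) (cos_yI y)
    fun t ht ht' => arg_nonneg x0.le x1.le q4.le ht ht'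
  have k3 : (ssF (x : ℂ)).im = 0 := ss_re x0.le (by linarith)
  rw [Complex.sub_im, Complex.add_im, k1, k2, Complex.mul_im, k3]
  simp

end

lemma dz_ge {η : ℝ} : 1 / 4 ≤ dz η := by
  have hpi := Real.pi_pos
  unfold dz
  rw [le_div_iff₀ (by positivity)]
  have h1 : 0 < 3 + Real.cosh η := by have := Real.cosh_pos η; linarith
  have h2 : (1 - Real.cosh η) / (3 + Real.cosh η) ≤ 0 :=
    div_nonpos_of_nonpos_of_nonneg (by linarith [Real.one_le_cosh η]) h1.le
  have h3 := Real.arccos_le_arccos h2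
  rw [Real.arccos_zero] at h3
  linarith

lemma dz_le {η : ℝ} (h : Adm η) : dz η ≤ 3 / 8 := by
  have hpi := Real.pi_pos
  obtain ⟨h0, h1⟩ := h
  have h2 : Real.cosh η ≤ 7 := by
    have e : Real.cosh η = 2 * Real.cosh (η / 2) ^ 2 - 1 := by
      rw [show η = 2 * (η / 2) by ring, Real.cosh_two_mul, Real.sinh_sq]
      ring_nf
    have := Real.one_le_cosh (η / 2)
    nlinarith
  have h3 : 0 < 3 + Real.cosh η := by have := Real.cosh_pos η; linarith
  have h4 : Real.cos (3 * π / 4) ≤ (1 - Real.cosh η) / (3 + Real.cosh η) := by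
    have e : Real.cos (3 * π / 4) = -(√2 / 2) := by
      rw [show 3 * π / 4 = π - π / 4 by ring, Real.cos_pi_sub, Real.cos_pi_div_four]
    rw [e, le_div_iff₀ h3]
    have h5 : (1.4 : ℝ) ≤ √2 := by
      rw [Real.le_sqrt (by norm_num) (by norm_num)]
      norm_num
    nlinarith
  unfold dz
  rw [div_le_iff₀ (by positivity)]
  have h5 := Real.arccos_le_arccos h4
  rw [Real.arccos_cos (by positivity) (by linarith)] at h5
  linarith

end Pool.Agent.TH126.ZK
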