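import Pool.Agent.W249.AX.KLog
import Pool.Agent.TH126.ZK.RealPt
import Pool.Agent.TH67.J364

/-!
Project Z (helper563): logarithm of the lower part of the kernel near `(0, i η)`, in the coordinates
`ψ` and `t`, `φ = i (η + t)`.

Adapted from `Pool.Agent.W249.AX.KLog` (starting file).
-/

set_option autoImplicit false

namespace Pool.Agent.TH126.ZK

open Finset Filter Topology Metric
open Pool.Agent.W711.HT hiding XX
open Pool.Agent.TH563.Z
open Pool.Agent.W719.AX (UX Rl)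
open Pool.Agent.W249.AX (ex_log bc_chain real_log rc_open rc_convex Rp_diff)
open Pool.Agent.TH67.J364 (dz_pos dz_lt Sd_pos)
open scoped Real

/-- the coordinate at `i η` -/
noncomputable def gt (η : ℝ) (t : ℂ) : ℂ := (η + t) * Complex.I

lemma gt_re (η : ℝ) (t : ℂ) : (gt η t).re = -t.im := by simp [gt]

lemma gt_im (η : ℝ) (t : ℂ) : (gt η t).im = η + t.re := by simp [gt]

lemma gt_mem {η a b : ℝ} {t : ℂ} (h : t ∈ Rc b a) : gt η t ∈ Rz η a b := by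
  refine ⟨?_, ?_⟩
  · rw [gt_re, abs_neg]; exact h.2
  · rw [gt_im, add_sub_cancel_left]; exact h.1

lemma gt_real {η : ℝ} {t : ℂ} (h : t.im = 0) : gt η t = ((η + t.re : ℝ) : ℂ) * Complex.I := by
  unfold gt
  congr 1
  apply Complex.ext
  · simp
  · simp [h]

lemma kerL_real (ε : ℝ) (N : ℕ) (a y : ℝ) : (kerL ε N (a : ℂ) (y * Complex.I)).im = 0 := by
  have h : kerL ε N (a : ℂ) (y * Complex.I) = ((∑ d ∈ range (cut ε N),
      (∏ j ∈ range d, (2 * Real.cos a + 2 * Real.cos (phi N j))) *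
      (∏ j ∈ range d, (2 * Real.cosh y + 2 * Real.cos (phi N j))) / (Sd N d) ^ 4 : ℝ) : ℂ) := by
    simp only [kerL, Rp, cos_yI]
    push_cast
    rfl
  rw [h, Complex.ofReal_im]

lemma kerL_pos {ε : ℝ} (hε : 0 < ε) {N : ℕ} (hN : 0 < N) (y : ℝ) :
    0 < (kerL ε N (0 : ℂ) (y * Complex.I)).re := by
  have h : kerL ε N (0 : ℂ) (y * Complex.I) = ((∑ d ∈ range (cut ε N),
      (∏ j ∈ range d, (2 * Real.cos 0 + 2 * Real.cos (phi N j))) *
      (∏ j ∈ range d, (2 * Real.cosh y + 2 * Real.cos (phi N j))) / (Sd N d) ^ 4 : ℝ) : ℂ) := by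
    simp only [kerL, Rp, cos_yI]
    push_cast
    rfl
  rw [h, Complex.ofReal_re]
  apply Finset.sum_pos'
  · intro d _
    have h1 : 0 ≤ ∏ j ∈ range d, (2 * Real.cos 0 + 2 * Real.cos (phi N j)) :=
      Finset.prod_nonneg fun j _ => by
        have := Real.neg_one_le_cos (phi N j)
        rw [Real.cos_zero]
        linarith
    have h2 : 0 ≤ ∏ j ∈ range d, (2 * Real.cosh y + 2 * Real.cos (phi N j)) :=
      Finset.prod_nonneg fun j _ => by
        have := Real.neg_one_le_cos (phi N j)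
        have := Real.one_le_cosh y
        linarith
    have h3 : 0 ≤ (Sd N d) ^ 4 := by
      rw [show (4 : ℕ) = 2 * 2 by norm_num, pow_mul]
      positivity
    exact div_nonneg (mul_nonneg h1 h2) h3
  · refine ⟨0, ?_, by simp [Sd]⟩
    rw [mem_range]
    unfold cut
    rw [Nat.ceil_pos]
    have : (0 : ℝ) < N := by exact_mod_cast hN
    positivity

section

variable {η ε ρ τ ρ' τ' κ c : ℝ} {s dl : ℂ → ℂ → ℂ}

lemma kxz_real (H : KDZ η ε ρ τ ρ' τ' κ c s dl) (N : ℕ) {a y : ℝ} (ha : |a| < 3 * ρ)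
    (hy : |y - η| < 3 * τ') : (kxz ε s N ((a : ℂ), (y * Complex.I : ℂ))).im = 0 := by
  obtain ⟨rz, Cz, Hz, hz1, hz2⟩ := H.sdz
  have e1 := s_re Hz dz_pos dz_lt (a := a) (y := y) (by linarith) (by linarith [H.hτ'.2.1])
  have e2 := kerL_real ε N a y
  have e3 : s (a : ℂ) (y * Complex.I) = (((s (a : ℂ) (y * Complex.I)).re : ℝ) : ℂ) := by
    apply Complex.ext <;> simp [e1]
  have e4 : kerL ε N (a : ℂ) (y * Complex.I) =
      (((kerL ε N (a : ℂ) (y * Complex.I)).re : ℝ) : ℂ) := by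
    apply Complex.ext <;> simp [e2]
  simp only [kxz]
  rw [e3, e4]
  have e5 : Complex.exp (-((N : ℂ) * (((s (a : ℂ) (y * Complex.I)).re : ℝ) : ℂ))) =
      ((Real.exp (-((N : ℝ) * (s (a : ℂ) (y * Complex.I)).re)) : ℝ) : ℂ) := by
    push_cast
    rfl
  rw [e5, ← Complex.ofReal_mul, ← Complex.ofReal_mul, Complex.ofReal_im]

lemma kxz_base_pos (H : KDZ η ε ρ τ ρ' τ' κ c s dl) {N : ℕ} (hN : 0 < N) :
    0 < (kxz ε s N ((0 : ℂ), (η * Complex.I : ℂ))).re := by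
  obtain ⟨rz, Cz, Hz, hz1, hz2⟩ := H.sdz
  have e2 : (kerL ε N (0 : ℂ) (η * Complex.I)).im = 0 := by
    have := kerL_real ε N 0 η
    rwa [Complex.ofReal_zero] at this
  have e4 : kerL ε N (0 : ℂ) (η * Complex.I) =
      (((kerL ε N (0 : ℂ) (η * Complex.I)).re : ℝ) : ℂ) := by
    apply Complex.ext <;> simp [e2]
  have e6 := kerL_pos H.hε.1 hN η
  simp only [kxz]
  rw [Hz.base, e4]
  have e5 : Complex.exp (-((N : ℂ) * ((AA η : ℝ) : ℂ))) =
      ((Real.exp (-((N : ℝ) * (AA η))) : ℝ) : ℂ) := by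
    push_cast
    rfl
  rw [e5, ← Complex.ofReal_mul, ← Complex.ofReal_mul, Complex.ofReal_re]
  have hN' : (0 : ℝ) < N := by exact_mod_cast hN
  have := Real.sqrt_pos.mpr hN'
  positivity

lemma kxz_diff (H : KDZ η ε ρ τ ρ' τ' κ c s dl) (N : ℕ) :
    DifferentiableOn ℂ (kxz ε s N) (Rc (3 * ρ) (3 * τ) ×ˢ Rz η (3 * ρ') (3 * τ')) := by
  obtain ⟨rz, Cz, Hz, hz1, hz2⟩ := H.sdz
  have hsub : Rc (3 * ρ) (3 * τ) ×ˢ Rz η (3 * ρ') (3 * τ') ⊆ Rc rz rz ×ˢ Rz η rz rz := by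
    rintro ⟨p, q⟩ ⟨hp, hq⟩
    refine ⟨⟨by linarith [hp.1], by linarith [hp.2, H.hτ.2]⟩,
      ⟨by linarith [hq.1], by linarith [hq.2, H.hτ'.2.1]⟩⟩
  have h1 := Hz.san.mono hsub
  have h2 : Differentiable ℂ (fun x : ℂ × ℂ => kerL ε N x.1 x.2) := by
    unfold kerL
    apply Differentiable.fun_sum
    intro d _
    have e1 : Differentiable ℂ (fun x : ℂ × ℂ => Rp N d x.1) := (Rp_diff N d).comp differentiable_fst
    have e2 : Differentiable ℂ (fun x : ℂ × ℂ => Rp N d x.2) := (Rp_diff N d).comp differentiable_snd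
    simp only [div_eq_mul_inv]
    exact (e1.mul e2).mul_const _
  unfold kxz
  have h3 : DifferentiableOn ℂ (fun x : ℂ × ℂ => Complex.exp (-((N : ℂ) * s x.1 x.2)))
      (Rc (3 * ρ) (3 * τ) ×ˢ Rz η (3 * ρ') (3 * τ')) := (h1.const_mul _).neg.cexp
  exact (h3.const_mul _).mul h2.differentiableOn

lemma kxz_mod {N : ℕ} (hN : 0 < N) {x : ℂ × ℂ}
    (h0 : kerL ε N x.1 x.2 ≠ 0)
    (h1 : |Real.log ‖kerL ε N x.1 x.2‖ - N * (s x.1 x.2).re| ≤ 1 * N) :
    kxz ε s N x ≠ 0 ∧ |Real.log ‖kxz ε s N x‖| ≤ 4 * N := by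
  have hN' : (0 : ℝ) < N := by exact_mod_cast hN
  have hsq := Real.sqrt_pos.mpr hN'
  have hne : ((((Real.sqrt N) ^ 3 : ℝ)) : ℂ) ≠ 0 := by
    rw [Complex.ofReal_ne_zero]; positivity
  refine ⟨mul_ne_zero (mul_ne_zero hne (Complex.exp_ne_zero _)) h0, ?_⟩
  have h2 : Real.log ‖kxz ε s N x‖ = 3 / 2 * Real.log N - N * (s x.1 x.2).re +
      Real.log ‖kerL ε N x.1 x.2‖ := by
    simp only [kxz]
    rw [norm_mul, norm_mul, Real.log_mul (mul_ne_zero (norm_ne_zero_iff.mpr hne)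
      (norm_ne_zero_iff.mpr (Complex.exp_ne_zero _))) (norm_ne_zero_iff.mpr h0),
      Real.log_mul (norm_ne_zero_iff.mpr hne) (norm_ne_zero_iff.mpr (Complex.exp_ne_zero _)),
      Complex.norm_real, Real.norm_eq_abs, abs_of_pos (by positivity), Real.log_pow,
      Real.log_sqrt hN'.le, Complex.norm_exp, Real.log_exp]
    have e1 : (-((N : ℂ) * s x.1 x.2)).re = -(N * (s x.1 x.2).re) := by simp
    rw [e1]
    push_cast
    ring
  have h3 : Real.log N ≤ N := (Real.log_le_sub_one_of_pos hN').trans (by linarith)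
  have h4 : 0 ≤ Real.log N := Real.log_nonneg (by exact_mod_cast hN)
  have h5 := abs_le.mp h1
  rw [h2, abs_le]
  constructor <;> linarith

/-- balls in a larger rectangle -/
lemma ball_sub {a b m : ℝ} (ha : m ≤ a) (hb : m ≤ b) {z w : ℂ} (hz : z ∈ Rc a b)
    (hw : dist w z < 2 * m) : w ∈ Rc (3 * a) (3 * b) := by
  rw [dist_eq_norm] at hw
  have h1 := Complex.abs_re_le_norm (w - z)
  have h2 := Complex.abs_im_le_norm (w - z)
  rw [Complex.sub_re] at h1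
  rw [Complex.sub_im] at h2
  have h3 := hz.1
  have h4 := hz.2
  have h5 : |w.re| ≤ |w.re - z.re| + |z.re| := by
    have := abs_add_le (w.re - z.re) z.re
    rwa [sub_add_cancel] at this
  have h6 : |w.im| ≤ |w.im - z.im| + |z.im| := by
    have := abs_add_le (w.im - z.im) z.im
    rwa [sub_add_cancel] at this
  exact ⟨by linarith, by linarith⟩

/-- the normalised kernel in the coordinates `ψ`, `t` -/
noncomputable def kt (η ε : ℝ) (s : ℂ → ℂ → ℂ) (N : ℕ) (x : ℂ × ℂ) : ℂ :=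
  kxz ε s N (x.1, gt η x.2)

theorem klogz (H : KDZ η ε ρ τ ρ' τ' κ c s dl) :
    ∃ (C₀ : ℝ) (L : ℕ → ℂ → ℂ → ℂ), ∀ᶠ N : ℕ in atTop,
    (∀ t ∈ Rc τ' ρ', DifferentiableOn ℂ (fun ψ => L N ψ t) (Rc ρ τ)) ∧
    (∀ ψ ∈ Rc ρ τ, DifferentiableOn ℂ (fun t => L N ψ t) (Rc τ' ρ')) ∧
    ∀ ψ ∈ Rc ρ τ, ∀ t ∈ Rc τ' ρ', ‖L N ψ t‖ ≤ C₀ * N ∧ Complex.exp (L N ψ t) = kt η ε s N (ψ, t) ∧
      (ψ.im = 0 → t.im = 0 → (L N ψ t).im = 0) := by
  have hρ := H.hρ.1
  have hτ := H.hτ.1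
  have hτρ := H.hτ.2
  have hρ' := H.hρ'.1
  have hτ' := H.hτ'.1
  have hτρ' := H.hτ'.2.1
  obtain ⟨m, hm, m1, m2⟩ : ∃ m : ℝ, 0 < m ∧ m ≤ τ ∧ m ≤ τ' :=
    ⟨min τ τ', lt_min hτ hτ', min_le_left _ _, min_le_right _ _⟩
  obtain ⟨n, hn⟩ := exists_nat_gt ((2 * ρ + 2 * ρ') / m)
  have hn0 : 0 < n := by
    have : (0 : ℝ) < n := lt_trans (by positivity) hn
    exact_mod_cast this
  set U : Set (ℂ × ℂ) := Rc (3 * ρ) (3 * τ) ×ˢ Rc (3 * τ') (3 * ρ') with hU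
  set K : Set (ℂ × ℂ) := Rc ρ τ ×ˢ Rc τ' ρ' with hK
  have hUo : IsOpen U := (rc_open _ _).prod (rc_open _ _)
  have hUc : Convex ℝ U := (rc_convex _ _).prod (rc_convex _ _)
  have hKc : Convex ℝ K := (rc_convex _ _).prod (rc_convex _ _)
  have z1 : (0 : ℂ) ∈ Rc ρ τ := ⟨by simpa using hρ, by simpa using hτ⟩
  have z1' : (0 : ℂ) ∈ Rc τ' ρ' := ⟨by simpa using hτ', by simpa using hρ'⟩
  have z3 : (0 : ℂ) ∈ Rc (3 * ρ) (3 * τ) := ⟨by simpa using hρ, by simpa using hτ⟩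
  have z3' : (0 : ℂ) ∈ Rc (3 * τ') (3 * ρ') := ⟨by simpa using hτ', by simpa using hρ'⟩
  have hU0 : (0 : ℂ × ℂ) ∈ U := ⟨z3, z3'⟩
  have hK0 : (0 : ℂ × ℂ) ∈ K := ⟨z1, z1'⟩
  have hRcsub : ∀ a b : ℝ, 0 < a → 0 < b → ∀ z ∈ Rc a b, z ∈ Rc (3 * a) (3 * b) := by
    intro a b ha hb z hz
    exact ⟨by linarith [hz.1], by linarith [hz.2]⟩
  have hs1 := hRcsub ρ τ hρ hτ
  have hs2 := hRcsub τ' ρ' hτ' hρ'
  have hKU : K ⊆ U := fun x hx => ⟨hs1 _ hx.1, hs2 _ hx.2⟩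
  have hktd : ∀ N, DifferentiableOn ℂ (kt η ε s N) U := by
    intro N
    have h1 : DifferentiableOn ℂ (fun x : ℂ × ℂ => (x.1, gt η x.2)) U := by
      unfold gt
      fun_prop
    exact (kxz_diff H N).comp h1 fun x hx => ⟨hx.1, gt_mem hx.2⟩
  have hktr : ∀ N, ∀ x ∈ U, x.1.im = 0 → x.2.im = 0 → (kt η ε s N x).im = 0 := by
    intro N x hx h1 h2
    unfold kt
    have e1 : x.1 = ((x.1.re : ℝ) : ℂ) := by apply Complex.ext <;> simp [h1]
    rw [e1, gt_real h2]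
    refine kxz_real H N hx.1.1 ?_
    rw [add_sub_cancel_left]
    exact hx.2.1
  have hkt0 : ∀ N, kt η ε s N 0 = kxz ε s N ((0 : ℂ), (η * Complex.I : ℂ)) := by
    intro N
    unfold kt gt
    simp
  -- the logarithm for large N
  have hex : ∀ᶠ N : ℕ in atTop, ∃ L : ℂ × ℂ → ℂ, DifferentiableOn ℂ L U ∧
      (∀ x ∈ U, Complex.exp (L x) = kt η ε s N x) ∧ (L 0).im = 0 ∧
      (∀ x ∈ U, |(L x).re| ≤ 4 * N) := by
    filter_upwards [H.mw 1 one_pos, eventually_gt_atTop 0] with N hmw hN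
    have hne : ∀ x ∈ U, kt η ε s N x ≠ 0 ∧ |Real.log ‖kt η ε s N x‖| ≤ 4 * N := by
      intro x hx
      have := hmw x.1 hx.1 (gt η x.2) (gt_mem hx.2)
      exact kxz_mod (x := (x.1, gt η x.2)) hN this.1 this.2
    have hpos : 0 < (kt η ε s N 0).re := by
      rw [hkt0]
      exact kxz_base_pos H hN
    have him0 : (kt η ε s N 0).im = 0 := hktr N 0 hU0 (by simp) (by simp)
    have hl : Complex.exp ((Real.log (kt η ε s N 0).re : ℝ) : ℂ) = kt η ε s N 0 := by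
      rw [← Complex.ofReal_exp, Real.exp_log hpos]
      apply Complex.ext <;> simp [him0]
    obtain ⟨L, hL1, hL2, hL3⟩ := ex_log hUo hUc (hktd N) (fun x hx => (hne x hx).1) hU0 hl
    refine ⟨L, hL1, hL2, by rw [hL3]; exact Complex.ofReal_im _, ?_⟩
    intro x hx
    have h1 := (hne x hx).2
    rwa [← hL2 x hx, Complex.norm_exp, Real.log_exp] at h1
  classical
  refine ⟨(6 * n + 1) * 4, fun N => if hN : ∃ L : ℂ × ℂ → ℂ, DifferentiableOn ℂ L U ∧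
      (∀ x ∈ U, Complex.exp (L x) = kt η ε s N x) ∧ (L 0).im = 0 ∧
      (∀ x ∈ U, |(L x).re| ≤ 4 * N) then fun p q => hN.choose (p, q) else fun _ _ => 0, ?_⟩
  filter_upwards [hex, eventually_gt_atTop 0] with N hN hN0
  have hNp : (0 : ℝ) < N := by exact_mod_cast hN0
  simp only [dif_pos hN]
  obtain ⟨hL1, hL2, hL3, hL4⟩ := hN.choose_spec
  set L := hN.choose with hLdef
  clear_value L
  refine ⟨?_, ?_, ?_⟩
  · intro q hq
    have e1 : DifferentiableOn ℂ (fun p : ℂ => (p, q)) (Rc ρ τ) := by fun_prop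
    exact (hL1.comp e1 (fun p hp => ⟨hs1 _ hp, hs2 _ hq⟩))
  · intro p hp
    have e1 : DifferentiableOn ℂ (fun q : ℂ => (p, q)) (Rc τ' ρ') := by fun_prop
    exact (hL1.comp e1 (fun q hq => ⟨hs1 _ hp, hs2 _ hq⟩))
  · intro p hp q hq
    have hx : (p, q) ∈ K := ⟨hp, hq⟩
    refine ⟨?_, hL2 _ (hKU hx), ?_⟩
    · have hnm : 2 * ρ + 2 * ρ' ≤ n * m := by
        rw [div_lt_iff₀ hm] at hn
        exact hn.le
      have hnorm : ‖((p, q) : ℂ × ℂ)‖ ≤ n * m := by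
        rw [Prod.norm_def]
        refine max_le ?_ ?_
        · have h1 := Complex.norm_le_abs_re_add_abs_im p
          have h2 := hp.1
          have h3 := hp.2
          simp only
          linarith
        · have h1 := Complex.norm_le_abs_re_add_abs_im q
          have h2 := hq.1
          have h3 := hq.2
          simp only
          linarith
      have hballs : ∀ p ∈ K, ball p (2 * m) ⊆ U := by
        intro p hp w hw
        rw [mem_ball, Prod.dist_eq, max_lt_iff] at hw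
        exact ⟨ball_sub (m1.trans hτρ) m1 hp.1 hw.1, ball_sub m2 (m2.trans hτρ') hp.2 hw.2⟩
      have := bc_chain hKc hK0 hL1 (by positivity : (0 : ℝ) < 4 * N) hm hL4
        hballs hL3 hn0 hx hnorm
      linarith
    · intro h1 h2
      have hSc : Convex ℝ {x : ℂ × ℂ | x ∈ U ∧ x.1.im = 0 ∧ x.2.im = 0} := by
        intro x hx y hy a b ha hb hab
        refine ⟨hUc hx.1 hy.1 ha hb hab, ?_, ?_⟩
        · simp [hx.2.1, hy.2.1]
        · simp [hx.2.2, hy.2.2]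
      have hxS : ((p, q) : ℂ × ℂ) ∈ {x : ℂ × ℂ | x ∈ U ∧ x.1.im = 0 ∧ x.2.im = 0} :=
        ⟨hKU hx, h1, h2⟩
      have h0S : (0 : ℂ × ℂ) ∈ {x : ℂ × ℂ | x ∈ U ∧ x.1.im = 0 ∧ x.2.im = 0} :=
        ⟨hU0, by simp, by simp⟩
      refine real_log hSc.isPreconnected (hL1.continuousOn.mono (fun x hx => hx.1)) ?_ h0S hL3 hxS
      intro x hx
      rw [hL2 x hx.1]
      exact hktr N x hx.1 hx.2.1 hx.2.2

end

end Pool.Agent.TH126.ZK
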